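import Mathlib
import Pool.Agent.Y776.FinD

/-!
# A closure operator
-/

set_option autoImplicit false

open Filter Module
open scoped Topology PeriodPair

noncomputable section

namespace Pool.Agent.Y119.MT

open H667R3 Pool.Agent.W245.EB Pool.Agent.Y685 Pool.Agent.Y776 Pool.Agent.TH813.Ell
open Pool.Agent.TH813.Rel (DF MK subset_cl rk_le_of_subset_cl)

/-- the finitary character of the closure -/
theorem fin_cl {K : IntermediateField ℚ ℂ} {B : Set ℂ} {x : ℂ} (hx : x ∈ (MK K).closure B) :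
    ∃ A : Set ℂ, A.Finite ∧ A ⊆ K ∧ ∀ E : IntermediateField ℚ ℂ, A ⊆ E → x ∈ (MK E).closure B := by
  have h1 : x ∈ (MK (⊥ : IntermediateField ℚ ℂ)).closure ((K : Set ℂ) ∪ B) := by
    rw [mem_cl_iff] at hx ⊢
    intro D _ hS
    exact hx D (fun y hy => hS y (Or.inl hy)) (fun y hy => hS y (Or.inr hy))
  have hfin : (MK (⊥ : IntermediateField ℚ ℂ)).Finitary := by infer_instance
  obtain ⟨J, hJ, hJf, -, hxJ⟩ := Matroid.exists_mem_finite_closure_of_mem_closure h1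
  refine ⟨J ∩ K, hJf.inter_of_left _, Set.inter_subset_right, fun E hE => ?_⟩
  rw [mem_cl_iff] at hxJ ⊢
  intro D hD hB
  refine hxJ D (fun y hy => ?_) (fun y hy => ?_)
  · exact hD y ((bot_le : (⊥ : IntermediateField ℚ ℂ) ≤ E) hy)
  · rcases hJ hy with h | h
    · exact hD y (hE ⟨hy, h⟩)
    · exact hB y h

/-- the rank of a finite set over a field is the rank over a finitely generated subfield -/
theorem fin_rk (K : IntermediateField ℚ ℂ) {B : Set ℂ} (hB : B.Finite) :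
    ∃ A : Set ℂ, A.Finite ∧ A ⊆ K ∧ ∀ E : IntermediateField ℚ ℂ, A ⊆ E → (MK E).eRk B ≤ (MK K).eRk B := by
  classical
  obtain ⟨I, hI⟩ := (MK K).exists_isBasis B (Set.subset_univ _)
  have h1 : ∀ x : B, ∃ A : Set ℂ, A.Finite ∧ A ⊆ K ∧
      ∀ E : IntermediateField ℚ ℂ, A ⊆ E → (x : ℂ) ∈ (MK E).closure I := fun x =>
    fin_cl (hI.subset_closure x.2)
  choose A hA1 hA2 hA3 using h1
  have : Finite B := hB
  refine ⟨⋃ x, A x, Set.finite_iUnion hA1, Set.iUnion_subset hA2, fun E hE => ?_⟩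
  rw [← hI.encard_eq_eRk]
  refine le_trans (rk_le_of_subset_cl (T := I) ?_) ((MK E).eRk_le_encard I)
  intro x hx
  exact hA3 ⟨x, hx⟩ E ((Set.subset_iUnion A ⟨x, hx⟩).trans hE)

/-- a choice for countable sets -/
def G (S : Set ℂ) : IntermediateField ℚ ℂ :=
  open Classical in if h : S.Countable then (exists_F h).choose else ⊤

theorem G_spec {S : Set ℂ} (hS : S.Countable) :
    (G S : Set ℂ).Countable ∧ S ⊆ G S ∧ (∀ x, IsAlgebraic (G S) x → x ∈ G S) ∧
    (∀ x ∈ G S, Complex.exp x ∈ G S) ∧ 2 * Real.pi * Complex.I ∈ G S ∧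
    ∀ L : PeriodPair, jv L ∉ G S → (∀ x ∈ G S, L.ω₂ ≠ x * L.ω₁) ∧
      ∀ (s n : ℕ) (t : Fin s → ℂ) (p : Fin n → ℂ),
      (∀ q : Fin s → ℚ, ∑ i, q i • t i ∈ G S → q = 0) →
      LinearIndependent ℚ (fun i => (PQ L).mkQ (p i)) →
      ((4 + (s + 2 * n) : ℕ) : ℕ∞) ≤ (MK (G S)).eRk (GenL L ∪ (Y776.ET t ∪ EP L p)) := by
  have h : G S = (exists_F hS).choose := by
    unfold G
    exact dif_pos hS
  rw [h]
  exact (exists_F hS).choose_spec

/-- the closed fields -/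
def Cl (K : IntermediateField ℚ ℂ) : Prop := ∀ A : Set ℂ, A.Finite → A ⊆ K → G A ≤ K

/-- the closure operator -/
def Φ (S : Set ℂ) : IntermediateField ℚ ℂ := sInf {K | S ⊆ K ∧ Cl K}

theorem Φ_le {S : Set ℂ} {K : IntermediateField ℚ ℂ} (h : S ⊆ K) (hK : Cl K) : Φ S ≤ K := sInf_le ⟨h, hK⟩

theorem sub_Φ (S : Set ℂ) : S ⊆ Φ S := by
  intro x hx
  have h : x ∈ Φ S ↔ ∀ K ∈ {K : IntermediateField ℚ ℂ | S ⊆ K ∧ Cl K}, x ∈ K := by
    unfold Φ
    exact IntermediateField.mem_sInf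
  exact h.2 fun K hK => hK.1 hx

theorem Cl_Φ (S : Set ℂ) : Cl (Φ S) := by
  intro A hA hAS
  refine le_sInf fun K hK => hK.2 A hA ?_
  intro x hx
  exact (sInf_le hK : Φ S ≤ K) (hAS hx)

theorem Φ_mono {S T : Set ℂ} (h : S ⊆ Φ T) : Φ S ≤ Φ T := Φ_le h (Cl_Φ T)

/-- one step -/
def st (S : Set ℂ) : Set ℂ := S ∪ ⋃ A : {A : Set ℂ // A.Finite ∧ A ⊆ S}, (G A : Set ℂ)

theorem st_countable {S : Set ℂ} (hS : S.Countable) : (st S).Countable := by
  have h1 : {A : Set ℂ | A.Finite ∧ A ⊆ S}.Countable := Set.countable_ofPred_finite_subset hS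
  have h2 : Countable {A : Set ℂ // A.Finite ∧ A ⊆ S} := h1.to_subtype
  exact hS.union (Set.countable_iUnion fun A => (G_spec A.2.1.countable).1)

/-- the iteration -/
def sq (S : Set ℂ) : ℕ → Set ℂ
  | 0 => S
  | n + 1 => st (sq S n)

theorem sq_countable {S : Set ℂ} (hS : S.Countable) (n : ℕ) : (sq S n).Countable := by
  induction n with
  | zero => exact hS
  | succ n ih => exact st_countable ih

theorem sq_mono (S : Set ℂ) : Monotone (sq S) := monotone_nat_of_le_succ fun _ => Set.subset_union_left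

theorem G_sq {S : Set ℂ} {n : ℕ} {A : Set ℂ} (hA : A.Finite) (h : A ⊆ sq S n) : (G A : Set ℂ) ⊆ sq S (n + 1) := by
  intro x hx
  exact Or.inr (Set.mem_iUnion.2 ⟨⟨A, hA, h⟩, hx⟩)

/-- the union of the iteration -/
def un (S : Set ℂ) : Set ℂ := ⋃ n, sq S n

theorem pair_un {S : Set ℂ} {x y : ℂ} (hx : x ∈ un S) (hy : y ∈ un S) :
    ∃ E : IntermediateField ℚ ℂ, x ∈ E ∧ y ∈ E ∧ (E : Set ℂ) ⊆ un S := by
  obtain ⟨a, ha⟩ := Set.mem_iUnion.1 hx
  obtain ⟨b, hb⟩ := Set.mem_iUnion.1 hy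
  have h1 : ({x, y} : Set ℂ).Finite := Set.toFinite _
  have h2 : ({x, y} : Set ℂ) ⊆ sq S (max a b) := by
    rintro z (rfl | rfl)
    · exact sq_mono S (le_max_left _ _) ha
    · exact sq_mono S (le_max_right _ _) hb
  have h3 := (G_spec h1.countable).2.1
  exact ⟨G {x, y}, h3 (Or.inl rfl), h3 (Or.inr rfl), (G_sq h1 h2).trans (Set.subset_iUnion (sq S) _)⟩

/-- the union is a field -/
def UF (S : Set ℂ) : IntermediateField ℚ ℂ where
  carrier := un S
  mul_mem' hx hy := by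
    obtain ⟨E, h1, h2, h3⟩ := pair_un hx hy
    exact h3 (mul_mem h1 h2)
  add_mem' hx hy := by
    obtain ⟨E, h1, h2, h3⟩ := pair_un hx hy
    exact h3 (add_mem h1 h2)
  algebraMap_mem' r := by
    have h1 : (G ∅ : Set ℂ) ⊆ sq S 1 := G_sq Set.finite_empty (Set.empty_subset _)
    exact Set.mem_iUnion.2 ⟨1, h1 ((G ∅).algebraMap_mem r)⟩
  inv_mem' x hx := by
    obtain ⟨E, h1, h2, h3⟩ := pair_un hx hx
    exact h3 (inv_mem h1)

theorem Cl_UF (S : Set ℂ) : Cl (UF S) := by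
  intro A hA h
  have h0 : A ⊆ ⋃ n, sq S n := h
  have h1 : ∃ n, A ⊆ sq S n := by
    obtain ⟨n, hn⟩ := (directed_of_isDirected_le (sq_mono S)).exists_mem_subset_of_finset_subset_biUnion
      (s := hA.toFinset) (by simpa using h0)
    exact ⟨n, by simpa using hn⟩
  obtain ⟨n, hn⟩ := h1
  exact fun x hx => Set.mem_iUnion.2 ⟨n + 1, G_sq hA hn hx⟩

theorem Φ_countable {S : Set ℂ} (hS : S.Countable) : (Φ S : Set ℂ).Countable := by
  have h1 : (UF S : Set ℂ).Countable := Set.countable_iUnion (sq_countable hS)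
  refine h1.mono ?_
  exact Φ_le (K := UF S) (Set.subset_iUnion (sq S) 0) (Cl_UF S)

theorem G_le_Φ {S A : Set ℂ} (hA : A.Finite) (h : A ⊆ Φ S) : G A ≤ Φ S := Cl_Φ S A hA h

theorem Φ_exp (S : Set ℂ) : ∀ x ∈ Φ S, Complex.exp x ∈ Φ S := by
  intro x hx
  have h := G_spec (Set.countable_singleton x)
  exact G_le_Φ (Set.finite_singleton x) (Set.singleton_subset_iff.2 hx) (h.2.2.2.1 x (h.2.1 rfl))

theorem Φ_pi (S : Set ℂ) : 2 * Real.pi * Complex.I ∈ Φ S :=
  G_le_Φ Set.finite_empty (Set.empty_subset _) (G_spec Set.countable_empty).2.2.2.2.1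

/-- the closure of the empty set consists of the algebraic numbers -/
theorem alg_of_cl {E : IntermediateField ℚ ℂ} {x : ℂ} : x ∈ (MK E).closure ∅ ↔ IsAlgebraic E x := by
  rw [Pool.Agent.TH813.Rel.mem_cl]
  constructor
  · intro h
    rw [Algebra.adjoin_empty] at h
    have : Algebra.IsAlgebraic E (⊥ : Subalgebra E ℂ) := by
      refine ⟨fun x => ?_⟩
      obtain ⟨r, hr⟩ := Algebra.mem_bot.1 x.2
      have : x = algebraMap E (⊥ : Subalgebra E ℂ) r := Subtype.ext hr.symm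
      rw [this]
      exact isAlgebraic_algebraMap r
    exact h.restrictScalars E
  · intro h
    exact h.extendScalars (algebraMap E (Algebra.adjoin E ∅)).injective

theorem Φ_alg (S : Set ℂ) : ∀ x, IsAlgebraic (Φ S) x → x ∈ Φ S := by
  intro x hx
  obtain ⟨A, hA, hAS, h⟩ := fin_cl (alg_of_cl.2 hx)
  have h1 := G_spec hA.countable
  exact G_le_Φ hA hAS (h1.2.2.1 x (alg_of_cl.1 (h _ h1.2.1)))

theorem Φ_ratio {S : Set ℂ} {L : PeriodPair} (hL : jv L ∉ Φ S) : ∀ x ∈ Φ S, L.ω₂ ≠ x * L.ω₁ := by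
  intro x hx
  have h := G_spec (Set.countable_singleton x)
  have h1 : G {x} ≤ Φ S := G_le_Φ (Set.finite_singleton x) (Set.singleton_subset_iff.2 hx)
  exact (h.2.2.2.2.2 L fun h0 => hL (h1 h0)).1 x (h.2.1 rfl)

/-- **The rank over closed fields** -/
theorem Φ_RkF {S : Set ℂ} {L : PeriodPair} (hL : jv L ∉ Φ S) : RkF (Φ S) L := by
  intro s n t p ht hp
  obtain ⟨A, hA, hAS, h⟩ := fin_rk (Φ S) (GA_finite (L := L) t p)
  have h1 := G_spec hA.countable
  have h2 : G A ≤ Φ S := G_le_Φ hA hAS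
  refine le_trans ?_ (h _ h1.2.1)
  exact (h1.2.2.2.2.2 L fun h0 => hL (h2 h0)).2 s n t p (fun q hq => ht q (h2 hq)) hp

end Pool.Agent.Y119.MT
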