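import Mathlib
import Pool.Agent.Y776.FinD

/-!
# Sequences of generic elliptic curves
-/

set_option autoImplicit false

open Filter Module
open scoped Topology PeriodPair

noncomputable section

namespace Pool.Agent.Y119.MT

open H667R3 Pool.Agent.W245.EB Pool.Agent.Y685 Pool.Agent.Y776 Pool.Agent.TH813.Ell
open Pool.Agent.TH813.Rel (DF MK subset_cl rk_le_of_subset_cl)

/-- adjoining a set to a field -/
def ext (E : IntermediateField ℚ ℂ) (P : Set ℂ) : IntermediateField ℚ ℂ := E ⊔ IntermediateField.adjoin ℚ P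

theorem le_ext (E : IntermediateField ℚ ℂ) (P : Set ℂ) : E ≤ ext E P := le_sup_left

theorem sub_ext (E : IntermediateField ℚ ℂ) (P : Set ℂ) : P ⊆ ext E P := fun _ hx =>
  (le_sup_right : IntermediateField.adjoin ℚ P ≤ ext E P) (IntermediateField.subset_adjoin ℚ P hx)

theorem ext_le {E F : IntermediateField ℚ ℂ} {P : Set ℂ} (h : E ≤ F) (hP : P ⊆ F) : ext E P ≤ F :=
  sup_le h (IntermediateField.adjoin_le_iff.2 hP)

/-- derivations of the extension -/
theorem DF_ext {E : IntermediateField ℚ ℂ} {P : Set ℂ} {D : Derivation ℚ ℂ ℂ} (h : D ∈ DF E) (hP : ∀ x ∈ P, D x = 0) :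
    D ∈ DF (ext E P) := by
  have h1 : ext E P ≤ Cst D := ext_le (fun x hx => h x hx) (fun x hx => hP x hx)
  exact fun x hx => h1 hx

/-- the closures over the extension -/
theorem cl_ext {E : IntermediateField ℚ ℂ} {P B : Set ℂ} {x : ℂ} (hx : x ∈ (MK (ext E P)).closure B) :
    x ∈ (MK E).closure (P ∪ B) := by
  rw [mem_cl_iff] at hx ⊢
  intro D hD hS
  exact hx D (DF_ext hD fun y hy => hS y (Or.inl hy)) (fun y hy => hS y (Or.inr hy))

/-- the additivity of the rank -/
theorem rank_ext_le (E : IntermediateField ℚ ℂ) (P B : Set ℂ) :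
    (MK E).eRk (P ∪ B) ≤ (MK E).eRk P + (MK (ext E P)).eRk B := by
  obtain ⟨I, hI⟩ := (MK (ext E P)).exists_isBasis B (Set.subset_univ _)
  have h1 : (MK E).eRk (P ∪ B) ≤ (MK E).eRk (P ∪ I) := by
    apply rk_le_of_subset_cl
    rintro x (hx | hx)
    · exact subset_cl _ (Or.inl hx)
    · exact cl_ext (hI.subset_closure hx)
  refine h1.trans (((MK E).eRk_union_le_eRk_add_encard P I).trans ?_)
  rw [hI.encard_eq_eRk]

/-- the additivity of the rank, finite case -/
theorem le_rank_ext (E : IntermediateField ℚ ℂ) (P B : Set ℂ) {a b : ℕ} (ha : (a : ℕ∞) ≤ (MK E).eRk P)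
    (hb : (b : ℕ∞) ≤ (MK (ext E P)).eRk B) : ((a + b : ℕ) : ℕ∞) ≤ (MK E).eRk (P ∪ B) := by
  classical
  obtain ⟨I, hIX, hI, hIc⟩ := Matroid.le_eRk_iff.1 ha
  have hIfin : I.Finite := by
    rw [← Set.encard_ne_top_iff, hIc]
    exact ENat.natCast_ne_top a
  have : Fintype I := hIfin.fintype
  have hcard : Fintype.card I = a := by
    have h1 : I.encard = (Fintype.card I : ℕ∞) := by
      rw [Set.encard_eq_coe_toFinset_card, Set.toFinset_card]
    rw [h1] at hIc
    exact_mod_cast hIc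
  let e : Fin a ≃ I := (finCongr hcard.symm).trans (Fintype.equivFin I).symm
  have hIind : AlgebraicIndependent E (fun i : I => (i : ℂ)) := hI
  have hx : AlgebraicIndependent E (fun i : Fin a => (e i : ℂ)) := hIind.comp e e.injective
  have h1 := rank_tower (le_ext E P) hx (fun i => sub_ext E P (hIX (e i).2)) hb
  refine h1.trans ((MK E).eRk_mono ?_)
  rintro x (⟨i, rfl⟩ | hx)
  · exact Or.inl (hIX (e i).2)
  · exact Or.inr hx

/-- the numbers of one curve -/
def nm (L : PeriodPair) {n : ℕ} (p : Fin n → ℂ) : Set ℂ := GenL L ∪ EP L p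

/-- the numbers of all curves -/
def pv {q : ℕ} (Λ : Fin q → PeriodPair) {n : Fin q → ℕ} (p : ∀ c, Fin (n c) → ℂ) : Set ℂ :=
  ⋃ c, nm (Λ c) (p c)

theorem pv_succ {q : ℕ} (Λ : Fin (q + 1) → PeriodPair) {n : Fin (q + 1) → ℕ} (p : ∀ c, Fin (n c) → ℂ) :
    pv Λ p = pv (fun c => Λ (Fin.castSucc c)) (fun c => p (Fin.castSucc c)) ∪
      nm (Λ (Fin.last q)) (p (Fin.last q)) := by
  ext x
  simp only [pv, Set.mem_iUnion, Set.mem_union]
  constructor
  · rintro ⟨c, hx⟩
    induction c using Fin.lastCases with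
    | last => exact Or.inr hx
    | cast c => exact Or.inl ⟨c, hx⟩
  · rintro (⟨c, hx⟩ | hx)
    · exact ⟨_, hx⟩
    · exact ⟨_, hx⟩

theorem nm_finite (L : PeriodPair) {n : ℕ} (p : Fin n → ℂ) : (nm L p).Finite := GenL_finite.union (EP_finite p)

theorem pv_finite {q : ℕ} (Λ : Fin q → PeriodPair) {n : Fin q → ℕ} (p : ∀ c, Fin (n c) → ℂ) :
    (pv Λ p).Finite := Set.finite_iUnion fun c => nm_finite (Λ c) (p c)

/-- the dimension of the exponents modulo `2πi` -/
def dt {s : ℕ} (t : Fin s → ℂ) : ℕ := finrank ℚ (Submodule.span ℚ (Set.range (fun i => P₁.mkQ (t i))))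

/-- the dimension of the points modulo the periods -/
def dp (L : PeriodPair) {m : ℕ} (z : Fin m → ℂ) : ℕ :=
  finrank (kL L) (Submodule.span (kL L) (Set.range (fun i => (P₂ L).mkQ (z i))))

theorem rk_fin {k : Type} [Field k] [Algebra k ℂ] {S : Set ℂ} (hS : S.Finite) : ∃ g : ℕ, (MK k).eRk S = (g : ℕ∞) := by
  obtain ⟨g, hg⟩ := ENat.ne_top_iff_exists.1 (ne_top_of_le_ne_top
    (Set.encard_ne_top_iff.2 hS) ((MK k).eRk_le_encard S))
  exact ⟨g, hg.symm⟩

theorem XE_le {E : IntermediateField ℚ ℂ} {s : ℕ} (t : Fin s → ℂ) (L : PeriodPair) {m : ℕ} (z : Fin m → ℂ)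
    {X : Submodule ℚ ℂ} (hX : X ≤ VT t) : (MK E).eRk (XE X) ≤ (MK E).eRk (GA L t z) :=
  rk_le_of_subset_cl ((XE_mono hX).trans (XE_sub t z))

/-- **The inequality for a sequence of curves.** -/
theorem tower_rank (q : ℕ) (hq : 1 ≤ q) : ∀ (Λ : Fin q → PeriodPair) (n : Fin q → ℕ) (p : ∀ c, Fin (n c) → ℂ)
    (F : ℕ → IntermediateField ℚ ℂ), (∀ c, F c ≤ F (c + 1)) → (∀ c : Fin q, nm (Λ c) (p c) ⊆ F (c + 1)) →
    (∀ c, ∀ x ∈ F c, Complex.exp x ∈ F c) → 2 * Real.pi * Complex.I ∈ F 0 → ∀ E : IntermediateField ℚ ℂ,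
    E ≤ F 0 → (∀ c : Fin q, RkF (F c) (Λ c)) → ∀ (s : ℕ) (t : Fin s → ℂ),
    (MK E).eRk (XE (VT t ⊓ FQ (F 0))) + ((dt t + 4 * q + 2 * ∑ c, dp (Λ c) (p c) + 1 : ℕ) : ℕ∞) ≤
      (MK E).eRk (pv Λ p ∪ Y776.ET t) + ((finrank ℚ (VT t ⊓ FQ (F 0) : Submodule ℚ ℂ) : ℕ) : ℕ∞) := by
  induction q, hq using Nat.le_induction with
  | base =>
    intro Λ n p F hF hn hexp hpi E hE hR s t
    have h1 := rank_GA (hexp 0) (hR 0) hE t (p 0)
    have h2 : pv Λ p ∪ Y776.ET t = GA (Λ 0) t (p 0) := by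
      have : pv Λ p = nm (Λ 0) (p 0) := by
        ext x
        simp only [pv, Set.mem_iUnion]
        constructor
        · rintro ⟨c, hx⟩
          obtain rfl : c = 0 := Subsingleton.elim _ _
          exact hx
        · intro hx
          exact ⟨_, hx⟩
      rw [this, nm, GA]
      ext x
      simp only [Set.mem_union]
      tauto
    rw [h2]
    refine le_trans (le_of_eq ?_) h1
    congr 2
  | succ q hq ih =>
    intro Λ n p F hF hn hexp hpi E hE hR s t
    have hmono : Monotone F := monotone_nat_of_le_succ hF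
    set pv' := pv (fun c => Λ (Fin.castSucc c)) (fun c => p (Fin.castSucc c)) with hpv'
    have hpvf : pv'.Finite := pv_finite _ _
    have hpvF : pv' ⊆ F q := by
      intro x hx
      rw [hpv', pv, Set.mem_iUnion] at hx
      obtain ⟨c, hx⟩ := hx
      exact hmono (show (c : ℕ) + 1 ≤ q from c.2) (hn (Fin.castSucc c) hx)
    set E' := ext E pv' with hE'
    have hE'F : E' ≤ F q := ext_le (hE.trans (hmono (Nat.zero_le q))) hpvF
    have h1 := rank_GA (hexp q) (hR (Fin.last q)) hE'F t (p (Fin.last q))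
    -- the exponents in the field
    have hP1 : P₁ ≤ VT t ⊓ FQ (F q) := by
      refine le_inf le_sup_left ?_
      unfold P₁
      rw [Submodule.span_le]
      rintro _ rfl
      exact hmono (Nat.zero_le q) hpi
    set X := VT t ⊓ FQ (F q) with hX
    have hXfd : FiniteDimensional ℚ X := Submodule.finiteDimensional_of_le (inf_le_left : X ≤ VT t)
    let b := finBasis ℚ X
    set t' : Fin (finrank ℚ X) → ℂ := fun i => (b i : ℂ) with ht'
    have hspan : Submodule.span ℚ (Set.range t') = X := by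
      have h3 : Set.range t' = X.subtype '' Set.range b := by
        rw [← Set.range_comp]
        rfl
      rw [h3, Submodule.span_image, b.span_eq, Submodule.map_top, Submodule.range_subtype]
    have hVT : VT t' = X := by
      unfold VT
      rw [hspan]
      exact sup_eq_right.2 hP1
    have hdt : dt t' + 1 = finrank ℚ X := by
      have h4 := finrank_mod P₁ t'
      rw [finrank_P₁, hspan, sup_eq_right.2 hP1] at h4
      exact h4
    have hinf : VT t' ⊓ FQ (F 0) = VT t ⊓ FQ (F 0) := by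
      rw [hVT, hX, inf_assoc]
      congr 1
      exact inf_eq_right.2 (fun x hx => hmono (Nat.zero_le q) hx)
    have h2 := ih (fun c => Λ (Fin.castSucc c)) _ (fun c => p (Fin.castSucc c)) F hF
      (fun c => hn (Fin.castSucc c)) hexp hpi E hE (fun c => hR (Fin.castSucc c)) _ t'
    rw [hinf] at h2
    have hETX : Y776.ET t' ⊆ XE X := by
      rintro x (⟨i, rfl⟩ | ⟨i, rfl⟩)
      · exact Or.inl (b i).2
      · exact Or.inr ⟨_, (b i).2, rfl⟩
    have h3 : (MK E).eRk (pv' ∪ Y776.ET t') ≤ (MK E).eRk pv' + (MK E').eRk (XE X) :=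
      ((MK E).eRk_mono (Set.union_subset_union_right _ hETX)).trans (rank_ext_le E _ _)
    -- finiteness
    obtain ⟨bb, hbb⟩ := rk_fin (k := E) hpvf
    obtain ⟨g, hg⟩ := rk_fin (k := E') (GA_finite (L := Λ (Fin.last q)) t (p (Fin.last q)))
    obtain ⟨x, hx⟩ := ENat.ne_top_iff_exists.1 (ne_top_of_le_ne_top (by rw [hg]; exact ENat.natCast_ne_top g)
      (XE_le (E := E') t (Λ (Fin.last q)) (p (Fin.last q)) (inf_le_left : X ≤ VT t)))
    obtain ⟨G, hG⟩ := rk_fin (k := E) ((pv_finite Λ p).union (ET_finite t))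
    obtain ⟨g', hg'⟩ := rk_fin (k := E) (GA_finite (L := Λ (Fin.last q)) t (p (Fin.last q)))
    obtain ⟨a, ha⟩ := ENat.ne_top_iff_exists.1 (ne_top_of_le_ne_top (by rw [hg']; exact ENat.natCast_ne_top g')
      (XE_le (E := E) t (Λ (Fin.last q)) (p (Fin.last q)) (inf_le_left : VT t ⊓ FQ (F 0) ≤ VT t)))
    have h4 : ((bb + g : ℕ) : ℕ∞) ≤ (MK E).eRk (pv Λ p ∪ Y776.ET t) := by
      refine (le_rank_ext E pv' (GA (Λ (Fin.last q)) t (p (Fin.last q))) hbb.ge hg.ge).trans
        ((MK E).eRk_mono ?_)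
      rw [pv_succ, nm, GA]
      intro y
      simp only [Set.mem_union]
      tauto
    rw [hbb, ← hx] at h3
    rw [← hx, hg] at h1
    rw [← ha] at h2 ⊢
    rw [hG] at h4 ⊢
    have h5 := h2.trans (add_le_add h3 le_rfl)
    rw [Fin.sum_univ_castSucc]
    have e1 : finrank (kL (Λ (Fin.last q))) (Submodule.span (kL (Λ (Fin.last q)))
      (Set.range (fun i => (P₂ (Λ (Fin.last q))).mkQ (p (Fin.last q) i)))) =
      dp (Λ (Fin.last q)) (p (Fin.last q)) := rfl
    have e2 : finrank ℚ (Submodule.span ℚ (Set.range (fun i => P₁.mkQ (t i)))) = dt t := rfl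
    rw [e1, e2] at h1
    norm_cast at h1 h4 h5 ⊢
    omega

end Pool.Agent.Y119.MT
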