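import Mathlib
import Pool.Agent.Y119.MT.Tower
import Pool.Agent.Y119.MT.Op

/-!
# Sequences of generic curves: ranks
-/

set_option autoImplicit false

open Filter Module
open scoped Topology PeriodPair

noncomputable section

namespace Pool.Agent.Y119.MT

open H667R3 Pool.Agent.W245.EB Pool.Agent.Y685 Pool.Agent.Y776 Pool.Agent.TH813.Ell
open Pool.Agent.TH813.Rel (DF MK subset_cl rk_le_of_subset_cl)

variable {q : ℕ} {Λ : Fin q → PeriodPair} {n : Fin q → ℕ} {p : ∀ c, Fin (n c) → ℂ} {S : Set ℂ}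

/-- the numbers before a curve -/
def be (Λ : Fin q → PeriodPair) {n : Fin q → ℕ} (p : ∀ c, Fin (n c) → ℂ) (S : Set ℂ) (c : ℕ) : Set ℂ :=
  S ∪ ⋃ b : Fin q, ⋃ (_ : (b : ℕ) < c), nm (Λ b) (p b)

theorem be_zero : be Λ p S 0 = S := by
  unfold be
  simp

theorem be_mono : Monotone (be Λ p S) := by
  intro a b hab x hx
  rcases hx with hx | hx
  · exact Or.inl hx
  · simp only [Set.mem_iUnion] at hx
    obtain ⟨c, hc, hx⟩ := hx
    refine Or.inr ?_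
    simp only [Set.mem_iUnion]
    exact ⟨c, hc.trans_le hab, hx⟩

theorem nm_be (c : Fin q) : nm (Λ c) (p c) ⊆ be Λ p S (c + 1) := by
  intro x hx
  refine Or.inr ?_
  simp only [Set.mem_iUnion]
  exact ⟨c, Nat.lt_succ_self _, hx⟩

/-- **The rank for generic sequences** -/
theorem gen_rank (hq : 1 ≤ q) (hG : ∀ c : Fin q, jv (Λ c) ∉ Φ (be Λ p S c)) {E : IntermediateField ℚ ℂ}
    (hE : E ≤ Φ S) {s : ℕ} (t : Fin s → ℂ) :
    (MK E).eRk (XE (VT t ⊓ FQ (Φ S))) + ((dt t + 4 * q + 2 * ∑ c, dp (Λ c) (p c) + 1 : ℕ) : ℕ∞) ≤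
      (MK E).eRk (pv Λ p ∪ Y776.ET t) + ((finrank ℚ (VT t ⊓ FQ (Φ S) : Submodule ℚ ℂ) : ℕ) : ℕ∞) := by
  have h := tower_rank q hq Λ n p (fun c => Φ (be Λ p S c))
    (fun c => Φ_mono ((be_mono (Nat.le_succ c)).trans (sub_Φ _)))
    (fun c => (nm_be c).trans (sub_Φ _)) (fun c => Φ_exp _) (Φ_pi _) E
    (by simpa only [be_zero] using hE) (fun c => Φ_RkF (hG c)) s t
  have e : Φ (be Λ p S 0) = Φ S := by rw [be_zero]
  beta_reduce at h
  rw [e] at h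
  exact h

/-- the periods of the earlier curves -/
theorem per_mem {L : PeriodPair} {m : ℕ} {z : Fin m → ℂ} {F : IntermediateField ℚ ℂ} (h : nm L z ⊆ F) :
    L.ω₁ ∈ F ∧ L.ω₂ ∈ F := by
  refine ⟨h (Or.inl ?_), h (Or.inl ?_)⟩
  · right; right; left; rfl
  · right; right; right; left; rfl

theorem cross {L L' : PeriodPair} {F : IntermediateField ℚ ℂ} (h1 : L.ω₁ ∈ F) (h2 : L.ω₂ ∈ F)
    (hr : ∀ x ∈ F, L'.ω₂ ≠ x * L'.ω₁) {α : ℂ} (h : ∀ w ∈ L.lattice, α * w ∈ L'.lattice) : α = 0 := by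
  by_contra hα
  obtain ⟨a, b, hab⟩ := PeriodPair.mem_lattice.1 (h _ L.ω₁_mem_lattice)
  obtain ⟨a', b', hab'⟩ := PeriodPair.mem_lattice.1 (h _ L.ω₂_mem_lattice)
  have hw1 := ω₁_ne_zero L
  -- the relation between the two quotients
  have key : L'.ω₂ * (b' * L.ω₁ - b * L.ω₂) = (a * L.ω₂ - a' * L.ω₁) * L'.ω₁ := by
    linear_combination L.ω₁ * hab' - L.ω₂ * hab
  by_cases h0 : (b' : ℂ) * L.ω₁ - b * L.ω₂ = 0
  · have hi : b' = 0 ∧ -b = 0 := by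
      have := ω_indep L (a := b') (b := -b) (by push_cast; linear_combination h0)
      exact this
    have hb : b = 0 := by omega
    have h5 : (a * L.ω₂ - a' * L.ω₁) * L'.ω₁ = 0 := by rw [← key, h0, mul_zero]
    have h6 : (a : ℂ) * L.ω₂ - a' * L.ω₁ = 0 := (mul_eq_zero.1 h5).resolve_right (ω₁_ne_zero L')
    have hi2 : -a' = 0 ∧ a = 0 := by
      have := ω_indep L (a := -a') (b := a) (by push_cast; linear_combination h6)
      exact this
    rw [hi2.2, hb] at hab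
    have h7 : α * L.ω₁ = 0 := by rw [← hab]; push_cast; ring
    rcases mul_eq_zero.1 h7 with h8 | h8
    · exact hα h8
    · exact hw1 h8
  · refine hr ((a * L.ω₂ - a' * L.ω₁) / (b' * L.ω₁ - b * L.ω₂)) ?_ ?_
    · exact div_mem (sub_mem (mul_mem (intCast_mem F a) h2) (mul_mem (intCast_mem F a') h1))
        (sub_mem (mul_mem (intCast_mem F b') h1) (mul_mem (intCast_mem F b) h2))
    · rw [div_mul_eq_mul_div, eq_div_iff h0]
      exact key

theorem cross' {L L' : PeriodPair} {F : IntermediateField ℚ ℂ} (h1 : L'.ω₁ ∈ F) (h2 : L'.ω₂ ∈ F)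
    (hr : ∀ x ∈ F, L.ω₂ ≠ x * L.ω₁) {α : ℂ} (h : ∀ w ∈ L.lattice, α * w ∈ L'.lattice) : α = 0 := by
  by_contra hα
  obtain ⟨a, b, hab⟩ := PeriodPair.mem_lattice.1 (h _ L.ω₁_mem_lattice)
  obtain ⟨a', b', hab'⟩ := PeriodPair.mem_lattice.1 (h _ L.ω₂_mem_lattice)
  have h3 : (a : ℂ) * L'.ω₁ + b * L'.ω₂ ≠ 0 := by
    rw [hab]
    exact mul_ne_zero hα (ω₁_ne_zero L)
  refine hr ((a' * L'.ω₁ + b' * L'.ω₂) / (a * L'.ω₁ + b * L'.ω₂)) ?_ ?_
  · exact div_mem (add_mem (mul_mem (intCast_mem F a') h1) (mul_mem (intCast_mem F b') h2))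
      (add_mem (mul_mem (intCast_mem F a) h1) (mul_mem (intCast_mem F b) h2))
  · rw [div_mul_eq_mul_div, eq_div_iff h3, hab, hab']
    ring

/-- **The curves are not isogenous** -/
theorem non_isog (hG : ∀ c : Fin q, jv (Λ c) ∉ Φ (be Λ p S c)) : ∀ c c', c ≠ c' → ∀ α : ℂ,
    (∀ w ∈ (Λ c).lattice, α * w ∈ (Λ c').lattice) → α = 0 := by
  intro c c' hcc α h
  have h0 : (c : ℕ) ≠ c' := fun h => hcc (Fin.ext h)
  rcases lt_or_gt_of_ne h0 with h1 | h1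
  · obtain ⟨m1, m2⟩ := per_mem ((nm_be c).trans ((be_mono (S := S) (Λ := Λ) (p := p) h1).trans (sub_Φ _)))
    exact cross m1 m2 (Φ_ratio (hG c')) h
  · obtain ⟨m1, m2⟩ := per_mem ((nm_be c').trans ((be_mono (S := S) (Λ := Λ) (p := p) h1).trans (sub_Φ _)))
    exact cross' m1 m2 (Φ_ratio (hG c)) h

/-- the numbers of normalized lattices -/
theorem rank_norm_q (hω : ∀ c, (Λ c).ω₁ = 1) (hn : ∀ c, n c = 0) {s : ℕ} (t : Fin s → ℂ) :
    (MK ℚ).eRk ({tpi} ∪ (pv Λ p ∪ Y776.ET t)) ≤ (MK ℚ).eRk ({tpi} ∪ Y776.ET t) + ((4 * q : ℕ) : ℕ∞) := by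
  classical
  let f : Fin q × Fin 4 → ℂ := fun x => ![(Λ x.1).g₂, (Λ x.1).g₃, (Λ x.1).ω₂, eta (Λ x.1) (Λ x.1).ω₁] x.2
  have h4 : (Set.range f).encard ≤ ((4 * q : ℕ) : ℕ∞) := by
    rw [← Set.image_univ]
    refine (Set.encard_image_le _ _).trans ?_
    rw [Set.encard_univ, ENat.card_eq_coe_fintype_card, Fintype.card_prod, Fintype.card_fin, Fintype.card_fin,
      mul_comm]
  refine le_trans ?_ (((MK ℚ).eRk_union_le_eRk_add_encard _ (Set.range f)).trans (add_le_add le_rfl h4))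
  rw [← MK_FR ℚ]
  apply rk_le_of_subset_cl
  intro x hx
  rw [mem_cl_iff]
  intro δ _ hS
  have hr : ∀ y ∈ Set.range f, δ y = 0 := fun y hy => hS y (Or.inr hy)
  have dp : δ tpi = 0 := hS _ (Or.inl (Or.inl rfl))
  rcases hx with hx | hx | hx
  · exact hS _ (Or.inl (Or.inl hx))
  · simp only [pv, Set.mem_iUnion] at hx
    obtain ⟨c, hx⟩ := hx
    have d2 : δ (Λ c).g₂ = 0 := hr _ ⟨(c, 0), rfl⟩
    have d3 : δ (Λ c).g₃ = 0 := hr _ ⟨(c, 1), rfl⟩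
    have d4 : δ (Λ c).ω₂ = 0 := hr _ ⟨(c, 2), rfl⟩
    have d5 : δ (eta (Λ c) (Λ c).ω₁) = 0 := hr _ ⟨(c, 3), rfl⟩
    have d1 : δ (Λ c).ω₁ = 0 := by rw [hω c, δ.map_one_eq_zero]
    have d6 : δ (eta (Λ c) (Λ c).ω₂) = 0 := by
      obtain ⟨n', hn', h1⟩ := legendre (Λ c)
      have h5 : δ (n' : ℂ) = 0 := δ.map_intCast n'
      have h2 : δ (n' * tpi) = 0 := by rw [D_mul, dp, h5]; ring
      unfold tpi at h2
      rw [← h1, map_sub, D_mul, D_mul, d1, d4, d5] at h2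
      have h3 : (Λ c).ω₁ * δ (eta (Λ c) (Λ c).ω₂) = 0 := by linear_combination h2
      exact (mul_eq_zero.1 h3).resolve_left (ω₁_ne_zero _)
    have hc : IsEmpty (Fin (n c)) := by
      rw [hn c]
      infer_instance
    rcases hx with (rfl | rfl | rfl | rfl | rfl | rfl) | ⟨i, -⟩ | ⟨i, -⟩ | ⟨i, -⟩
    · exact d2
    · exact d3
    · exact d1
    · exact d4
    · exact d5
    · exact d6
    all_goals exact (hc.false i).elim
  · exact hS _ (Or.inl (Or.inr hx))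

end Pool.Agent.Y119.MT
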